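import Pool.Agent.N266.TI.Stm

/-!
Project TI (helper266), leaf STARi (helper186): stars have capacity zero.
-/

set_option autoImplicit false

namespace Pool.Agent.N186.TI.Star

open MeasureTheory Metric Set Pool.Agent.N266.TI
open scoped ENNReal Pointwise ContDiff

theorem isCompact_seg {n : ℕ} (a b : E n) : IsCompact (segment ℝ a b) := by
  rw [← convexHull_pair]
  exact (Set.toFinite _).isCompact_convexHull ℝ

theorem isCompact_star {n : ℕ} (x₀ : E n) (F : Finset (E n)) :
    IsCompact (Pool.Agent.N266.TI.star x₀ F) :=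
  F.isCompact_biUnion (fun p _ => isCompact_seg x₀ p)

theorem vol_star {n : ℕ} (hSEG : SEG) (hn : 1 ≤ n) (x₀ : E n) (F : Finset (E n))
    (hF : F.Nonempty) : ∃ C : ℝ, 0 < C ∧ ∀ s : ℝ, 0 < s → s ≤ 1 →
    volume (cthickening s (Pool.Agent.N266.TI.star x₀ F)) ≤ ENNReal.ofReal (C * s ^ (n - 1)) := by
  choose C hC0 hC using fun p => hSEG n hn x₀ p
  refine ⟨∑ p ∈ F, C p, Finset.sum_pos (fun p _ => hC0 p) hF, ?_⟩
  intro s hs hs1
  have hsub : cthickening s (Pool.Agent.N266.TI.star x₀ F) ⊆
      ⋃ p ∈ F, cthickening s (segment ℝ x₀ p) := by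
    rw [(isCompact_star x₀ F).cthickening_eq_biUnion_closedBall hs.le]
    intro y hy
    simp only [mem_iUnion, exists_prop] at hy ⊢
    obtain ⟨x, hx, hyx⟩ := hy
    unfold Pool.Agent.N266.TI.star at hx
    simp only [mem_iUnion, exists_prop] at hx
    obtain ⟨p, hp, hxp⟩ := hx
    exact ⟨p, hp, closedBall_subset_cthickening hxp s hyx⟩
  calc volume (cthickening s (Pool.Agent.N266.TI.star x₀ F))
      ≤ volume (⋃ p ∈ F, cthickening s (segment ℝ x₀ p)) := measure_mono hsub
    _ ≤ ∑ p ∈ F, volume (cthickening s (segment ℝ x₀ p)) := measure_biUnion_finset_le _ _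
    _ ≤ ∑ p ∈ F, ENNReal.ofReal (C p * s ^ (n - 1)) :=
        Finset.sum_le_sum (fun p _ => hC p s hs hs1)
    _ = ENNReal.ofReal (∑ p ∈ F, C p * s ^ (n - 1)) :=
        (ENNReal.ofReal_sum_of_nonneg (fun p _ => by have := hC0 p; positivity)).symm
    _ = _ := by rw [Finset.sum_mul]

theorem mem_cth {n : ℕ} {Γ : Set (E n)} (hΓ : Γ.Nonempty) {x : E n} {r : ℝ} (hr : 0 ≤ r)
    (h : infDist x Γ ≤ r) : x ∈ cthickening r Γ := by
  rw [mem_cthickening_iff, ENNReal.le_ofReal_iff_toReal_le (infEDist_ne_top hΓ) hr]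
  exact h

theorem gr_zero {n : ℕ} {v : E n → ℝ} {x : E n} {c : ℝ} (h : v =ᶠ[nhds x] fun _ => c) :
    gr v x = 0 := by
  have h1 : fderiv ℝ v x = 0 := by
    rw [h.fderiv_eq]
    simp
  unfold gr
  rw [h1]
  ext i
  simp

theorem gr_sum {n : ℕ} (χ : ℕ → E n → ℝ) (h : ∀ j, ContDiff ℝ 1 (χ j)) (J : ℕ) (c : ℝ)
    (x : E n) : gr (fun x => c * ∑ j ∈ Finset.range J, χ j x) x =
      c • ∑ j ∈ Finset.range J, gr (χ j) x := by
  have hd : ∀ j, DifferentiableAt ℝ (χ j) x := fun j => (h j).differentiable (by norm_num) x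
  have h1 : fderiv ℝ (fun x => c * ∑ j ∈ Finset.range J, χ j x) x =
      c • ∑ j ∈ Finset.range J, fderiv ℝ (χ j) x := by
    rw [fderiv_const_mul (DifferentiableAt.fun_sum (fun j _ => hd j)), fderiv_fun_sum (fun j _ => hd j)]
  ext i
  have h2 : gr (fun x => c * ∑ j ∈ Finset.range J, χ j x) x i =
      fderiv ℝ (fun x => c * ∑ j ∈ Finset.range J, χ j x) x (e i) := rfl
  rw [h2, h1]
  simp [gr]

theorem main : STARi := by
  intro hCUT0 hSEG n hn x₀ F hF η ε hη hε
  obtain ⟨C, hC0, hCUT⟩ := hCUT0 n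
  obtain ⟨C1, hC10, hvol⟩ := vol_star hSEG (by omega : 1 ≤ n) x₀ F hF
  have hΓc := isCompact_star x₀ F
  have hΓn : (Pool.Agent.N266.TI.star x₀ F).Nonempty := by
    obtain ⟨p, hp⟩ := hF
    exact ⟨x₀, mem_biUnion hp (left_mem_segment ℝ x₀ p)⟩
  set Γ := Pool.Agent.N266.TI.star x₀ F with hΓ
  set s0 : ℝ := min (1 / 2) (η / 4) with hs0
  have hs0pos : 0 < s0 := lt_min (by norm_num) (by linarith)
  have hs0half : s0 ≤ 1 / 2 := min_le_left _ _
  have hs0η : s0 ≤ η / 4 := min_le_right _ _
  set s : ℕ → ℝ := fun j => s0 / 4 ^ j with hsdef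
  have hs : ∀ j, 0 < s j := fun j => by positivity
  have hsle : ∀ i j, i ≤ j → s j ≤ s i := by
    intro i j hij
    exact div_le_div_of_nonneg_left hs0pos.le (by positivity)
      (pow_le_pow_right₀ (by norm_num) hij)
  have hs00 : s 0 = s0 := by simp [hsdef]
  have hsle0 : ∀ j, s j ≤ s0 := fun j => by
    rw [← hs00]; exact hsle 0 j (Nat.zero_le _)
  have hanti : ∀ i j, i < j → 2 * s j < s i := by
    intro i j hij
    have h1 := hsle (i + 1) j hij
    have h2 : s (i + 1) = s i / 4 := by
      simp only [hsdef, pow_succ]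
      field_simp
    have := hs i
    linarith
  choose χ hχ1 hχ2 hχ3 hχ4 hχ5 hχ6 using fun j => hCUT Γ (s j) hΓc hΓn (hs j)
  have hz1 : ∀ j x, infDist x Γ < s j → gr (χ j) x = 0 := by
    intro j x hx
    refine gr_zero (c := 1) ?_
    have ho : IsOpen {y | infDist y Γ < s j} := isOpen_lt (continuous_infDist_pt Γ) continuous_const
    filter_upwards [ho.mem_nhds hx] with y hy
    exact hχ4 j y (le_of_lt hy)
  have hz2 : ∀ j x, 2 * s j < infDist x Γ → gr (χ j) x = 0 := by
    intro j x hx
    refine gr_zero (c := 0) ?_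
    have ho : IsOpen {y | 2 * s j < infDist y Γ} :=
      isOpen_lt continuous_const (continuous_infDist_pt Γ)
    filter_upwards [ho.mem_nhds hx] with y hy
    exact hχ5 j y (le_of_lt hy)
  obtain ⟨J, hJ⟩ := exists_nat_gt (4 * C ^ 2 * C1 / ε)
  have hJpos : (0 : ℝ) < J := lt_trans (by positivity) hJ
  have hJ1 : 1 ≤ J := by
    have : 0 < J := by exact_mod_cast hJpos
    omega
  refine ⟨s (J - 1), fun x => (1 / (J : ℝ)) * ∑ j ∈ Finset.range J, χ j x, hs _, ?_, ?_, ?_, ?_,
    ?_, ?_, ?_⟩
  · have := hsle0 (J - 1)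
    linarith
  · exact contDiff_const.mul (ContDiff.sum (fun j _ => hχ1 j))
  · refine HasCompactSupport.intro (K := cthickening (2 * s0) Γ) hΓc.cthickening ?_
    intro x hx
    have hx' : 2 * s0 < infDist x Γ := by
      by_contra hcon
      push Not at hcon
      exact hx (mem_cth hΓn (by positivity) hcon)
    rw [Finset.sum_eq_zero, mul_zero]
    intro j _
    exact hχ5 j x (by have := hsle0 j; linarith)
  · intro x
    exact mul_nonneg (by positivity) (Finset.sum_nonneg (fun j _ => (hχ3 j x).1))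
  · intro x hx
    have h1 : ∑ j ∈ Finset.range J, χ j x = J := by
      rw [Finset.sum_congr rfl (fun j hj => hχ4 j x (hx.trans (hsle j (J - 1) (by
        have := Finset.mem_range.1 hj; omega))))]
      simp
    show 1 ≤ (1 / (J : ℝ)) * ∑ j ∈ Finset.range J, χ j x
    rw [h1, one_div_mul_cancel hJpos.ne']
  · intro x hx
    show (1 / (J : ℝ)) * ∑ j ∈ Finset.range J, χ j x = 0
    rw [Finset.sum_eq_zero, mul_zero]
    intro j _
    exact hχ5 j x (by have := hsle0 j; linarith)
  · set A : ℕ → Set (E n) := fun j => cthickening (2 * s j) Γ with hA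
    have hAm : ∀ j, MeasurableSet (A j) := fun j => isClosed_cthickening.measurableSet
    have h2s : ∀ j, 2 * s j ≤ 1 := fun j => by have := hsle0 j; linarith
    have hAvol : ∀ j, volume (A j) ≤ ENNReal.ofReal (C1 * (2 * s j) ^ (n - 1)) := fun j =>
      hvol (2 * s j) (by have := hs j; linarith) (h2s j)
    have hAtop : ∀ j, volume (A j) ≠ ⊤ := fun j =>
      ne_top_of_le_ne_top ENNReal.ofReal_ne_top (hAvol j)
    have hAreal : ∀ j, volume.real (A j) ≤ C1 * (2 * s j) ^ (n - 1) := fun j =>
      ENNReal.toReal_le_of_le_ofReal (by have := hs j; positivity) (hAvol j)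
    set k : ℕ → ℝ := fun j => (1 / (J : ℝ)) ^ 2 * (C / s j) ^ 2 with hk
    have hk0 : ∀ j, 0 ≤ k j := fun j => by positivity
    have hpt : ∀ x, ‖gr (fun x => (1 / (J : ℝ)) * ∑ j ∈ Finset.range J, χ j x) x‖ ^ 2 ≤
        ∑ j ∈ Finset.range J, (A j).indicator (fun _ => k j) x := by
      intro x
      rw [gr_sum χ hχ1 J _ x]
      have hnn : ∀ j ∈ Finset.range J, 0 ≤ (A j).indicator (fun _ => k j) x := fun j _ =>
        Set.indicator_nonneg (fun _ _ => hk0 j) x
      by_cases hex : ∃ j0 ∈ Finset.range J, s j0 ≤ infDist x Γ ∧ infDist x Γ ≤ 2 * s j0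
      · obtain ⟨j0, hj0, hl, hu⟩ := hex
        have hsum : ∑ j ∈ Finset.range J, gr (χ j) x = gr (χ j0) x := by
          refine Finset.sum_eq_single_of_mem j0 hj0 (fun j _ hne => ?_)
          rcases lt_or_gt_of_ne hne with hlt | hlt
          · exact hz1 j x (lt_of_le_of_lt hu (hanti j j0 hlt))
          · exact hz2 j x (lt_of_lt_of_le (hanti j0 j hlt) hl)
        rw [hsum, norm_smul, mul_pow]
        have hmem : x ∈ A j0 := mem_cth hΓn (by have := hs j0; linarith) hu
        have h1 : (A j0).indicator (fun _ => k j0) x ≤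
            ∑ j ∈ Finset.range J, (A j).indicator (fun _ => k j) x :=
          Finset.single_le_sum hnn hj0
        refine le_trans ?_ h1
        rw [Set.indicator_of_mem hmem]
        have h2 := hχ6 j0 x
        have h3 : ‖(1 / (J : ℝ))‖ = 1 / (J : ℝ) := by
          rw [Real.norm_eq_abs, abs_of_nonneg (by positivity)]
        rw [h3]
        exact mul_le_mul_of_nonneg_left (pow_le_pow_left₀ (norm_nonneg _) h2 2) (by positivity)
      · have hsum : ∑ j ∈ Finset.range J, gr (χ j) x = 0 := by
          refine Finset.sum_eq_zero (fun j hj => ?_)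
          by_cases hl : infDist x Γ < s j
          · exact hz1 j x hl
          · by_cases hu : 2 * s j < infDist x Γ
            · exact hz2 j x hu
            · exact absurd ⟨j, hj, not_lt.1 hl, not_lt.1 hu⟩ hex
        rw [hsum, smul_zero, norm_zero]
        have := Finset.sum_nonneg hnn
        simpa using this
    have hint : ∀ j ∈ Finset.range J, Integrable ((A j).indicator (fun _ => k j)) := by
      intro j _
      rw [integrable_indicator_iff (hAm j)]
      exact integrableOn_const (hAtop j)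
    unfold En
    calc ∫ x, ‖gr (fun x => (1 / (J : ℝ)) * ∑ j ∈ Finset.range J, χ j x) x‖ ^ 2
        ≤ ∫ x, ∑ j ∈ Finset.range J, (A j).indicator (fun _ => k j) x := by
          refine integral_mono_of_nonneg (Filter.Eventually.of_forall (fun x => by positivity))
            (integrable_finsetSum _ hint) (Filter.Eventually.of_forall hpt)
      _ = ∑ j ∈ Finset.range J, ∫ x, (A j).indicator (fun _ => k j) x :=
          integral_finsetSum _ hint
      _ = ∑ j ∈ Finset.range J, volume.real (A j) * k j := by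
          refine Finset.sum_congr rfl (fun j _ => ?_)
          rw [integral_indicator_const _ (hAm j), smul_eq_mul]
      _ ≤ ∑ j ∈ Finset.range J, (4 * C ^ 2 * C1) / (J : ℝ) ^ 2 := by
          refine Finset.sum_le_sum (fun j _ => ?_)
          have hsj := hs j
          have h1 : (2 * s j) ^ (n - 1) ≤ (2 * s j) ^ 2 :=
            pow_le_pow_of_le_one (by positivity) (h2s j) (by omega)
          calc volume.real (A j) * k j ≤ (C1 * (2 * s j) ^ (n - 1)) * k j :=
                mul_le_mul_of_nonneg_right (hAreal j) (hk0 j)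
            _ ≤ (C1 * (2 * s j) ^ 2) * k j :=
                mul_le_mul_of_nonneg_right (mul_le_mul_of_nonneg_left h1 hC10.le) (hk0 j)
            _ = (4 * C ^ 2 * C1) / (J : ℝ) ^ 2 := by
                simp only [hk]
                have := hsj.ne'
                field_simp
                ring
      _ = 4 * C ^ 2 * C1 / J := by
          rw [Finset.sum_const, Finset.card_range, nsmul_eq_mul]
          field_simp
      _ ≤ ε := by
          rw [div_le_iff₀ hJpos]
          rw [div_lt_iff₀ hε] at hJ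
          linarith

end Pool.Agent.N186.TI.Star
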